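import Mathlib

/-!
# The quotient of a semigroup by o-conjugacy need not be cancellative

`S` is the monoid of all maps `X ↦ 2 ^ n * X + q` of the rational numbers with `q` rational and
`n` a natural number. Two elements `(q, n)` and `(q', n')` are o-conjugate if and only if
`n = n'`, and moreover `q = q'` in case `n = 0`. So o-conjugacy is a congruence, and in the quotient
all translations become equal after multiplication by the class of `X ↦ 2 * X`, although they are
pairwise different.
-/

namespace Pool.Agent.Results.MP_472d46_al.NotCancellative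

/-- o-conjugacy in a semigroup `S`: there are `g, h ∈ S¹` with `a g = g b` and `b h = h a`.
Here `S¹` is `WithOne S`. (If `S` already has an identity element, the additional identity of
`WithOne S` changes nothing: for `g` equal to either identity, `a g = g b` says `a = b`.) -/
def OConj {S : Type*} [Semigroup S] (a b : S) : Prop :=
  ∃ g h : WithOne S, (a : WithOne S) * g = g * (b : WithOne S) ∧
    (b : WithOne S) * h = h * (a : WithOne S)

/-- The element `⟨q, n⟩` stands for the map `X ↦ 2 ^ n * X + q` of the rational numbers. -/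
@[ext] structure Aff where
  q : ℚ
  n : ℕ

namespace Aff

instance : Mul Aff := ⟨fun a b => ⟨a.q + 2 ^ a.n * b.q, a.n + b.n⟩⟩

@[simp] theorem mul_q (a b : Aff) : (a * b).q = a.q + 2 ^ a.n * b.q := rfl
@[simp] theorem mul_n (a b : Aff) : (a * b).n = a.n + b.n := rfl

instance : Semigroup Aff where
  mul_assoc a b c := by
    ext
    · simp only [mul_q, mul_n, pow_add]; ring
    · simp only [mul_n]; ring

instance : IsCancelMul Aff where
  mul_left_cancel a b c h := by
    have h1 := congrArg Aff.n h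
    have h2 := congrArg Aff.q h
    simp only [mul_q, mul_n] at h1 h2
    have h3 : (2 : ℚ) ^ a.n ≠ 0 := by positivity
    ext
    · exact mul_left_cancel₀ h3 (add_left_cancel h2)
    · exact Nat.add_left_cancel h1
  mul_right_cancel a b c h := by
    have h1 := congrArg Aff.n h
    have h2 := congrArg Aff.q h
    simp only [mul_q, mul_n] at h1 h2
    have h3 : b.n = c.n := Nat.add_right_cancel h1
    rw [h3] at h2
    ext
    · exact add_right_cancel h2
    · exact h3

/-- The map `X ↦ X + q`. -/
def tr (q : ℚ) : Aff := ⟨q, 0⟩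

theorem half {a b : Aff} {g : WithOne Aff}
    (h : (a : WithOne Aff) * g = g * (b : WithOne Aff)) :
    a.n = b.n ∧ (a.n = 0 → ∃ m : ℕ, a.q = 2 ^ m * b.q) := by
  rcases WithOne.cases_on (P := fun g => g = 1 ∨ ∃ x : Aff, g = (x : WithOne Aff)) g
    (Or.inl rfl) (fun x => Or.inr ⟨x, rfl⟩) with rfl | ⟨x, rfl⟩
  · rw [mul_one, one_mul, WithOne.coe_inj] at h
    subst h
    exact ⟨rfl, fun _ => ⟨0, by simp⟩⟩
  · rw [← WithOne.coe_mul, ← WithOne.coe_mul, WithOne.coe_inj] at h
    have h1 := congrArg Aff.n h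
    have h2 := congrArg Aff.q h
    simp only [mul_q, mul_n] at h1 h2
    refine ⟨by omega, fun h0 => ⟨x.n, ?_⟩⟩
    rw [h0, pow_zero, one_mul, add_comm] at h2
    exact add_left_cancel h2

theorem exists_half {a b : Aff} (h : a.n = b.n) (h0 : a.n = 0 → a.q = b.q) :
    ∃ g : WithOne Aff, (a : WithOne Aff) * g = g * (b : WithOne Aff) := by
  by_cases hn : a.n = 0
  · have hab : a = b := by
      ext
      · exact h0 hn
      · exact h
    subst hab
    exact ⟨1, by simp⟩
  · have h2 : (2 : ℚ) ^ a.n - 1 ≠ 0 := by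
      have : (1 : ℚ) < 2 ^ a.n := one_lt_pow₀ (by norm_num) hn
      linarith
    refine ⟨((tr ((b.q - a.q) / (2 ^ a.n - 1)) : Aff) : WithOne Aff), ?_⟩
    rw [← WithOne.coe_mul, ← WithOne.coe_mul, WithOne.coe_inj]
    ext
    · simp only [mul_q, tr, pow_zero, one_mul]
      field_simp
      ring
    · simp only [mul_n, tr]; omega

theorem oconj_iff (a b : Aff) : OConj a b ↔ a.n = b.n ∧ (a.n = 0 → a.q = b.q) := by
  constructor
  · rintro ⟨g, h, h1, h2⟩
    have h3 := half h1
    have h4 := half h2
    refine ⟨h3.1, fun h0 => ?_⟩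
    obtain ⟨m, hm⟩ := h3.2 h0
    obtain ⟨k, hk⟩ := h4.2 (h3.1 ▸ h0)
    have h5 : a.q = 2 ^ (m + k) * a.q := by
      rw [pow_add, mul_assoc, ← hk, ← hm]
    by_cases hmk : m + k = 0
    · have : m = 0 := by omega
      rw [hm, this, pow_zero, one_mul]
    · have h6 : (1 : ℚ) < 2 ^ (m + k) := one_lt_pow₀ (by norm_num) hmk
      have h7 : a.q = 0 := by
        have : (2 ^ (m + k) - 1) * a.q = 0 := by linarith
        rcases mul_eq_zero.1 this with h8 | h8
        · linarith
        · exact h8
      rw [hk, h7, mul_zero]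
  · rintro ⟨h, h0⟩
    obtain ⟨g, hg⟩ := exists_half h h0
    obtain ⟨k, hk⟩ := exists_half h.symm (fun h1 => (h0 (h.trans h1)).symm)
    exact ⟨g, k, hg, hk⟩

/-- o-conjugacy on `Aff` as a congruence. -/
def con : Con Aff where
  r := OConj
  iseqv := by
    refine ⟨fun a => ?_, fun {a b} h => ?_, fun {a b c} h1 h2 => ?_⟩
    · rw [oconj_iff]; exact ⟨rfl, fun _ => rfl⟩
    · rw [oconj_iff] at h ⊢
      exact ⟨h.1.symm, fun h0 => (h.2 (h.1.trans h0)).symm⟩
    · rw [oconj_iff] at h1 h2 ⊢
      exact ⟨h1.1.trans h2.1, fun h0 => (h1.2 h0).trans (h2.2 (h1.1 ▸ h0))⟩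
  mul' := by
    intro w x y z h1 h2
    rw [oconj_iff] at h1 h2 ⊢
    refine ⟨?_, fun h0 => ?_⟩
    · simp only [mul_n]; rw [h1.1, h2.1]
    · simp only [mul_n] at h0
      simp only [mul_q]
      rw [h1.2 (by omega), h2.2 (by omega), h1.1]

end Aff

/-- **There is a semigroup `S`** (even a cancellative one) **on which o-conjugacy is a congruence
and whose quotient by o-conjugacy is not cancellative**: there are `x ≠ y` and `z` in the quotient
with `x z = y z` and `z x = z y`. -/
theorem result : ∃ (S : Type) (_ : Semigroup S) (_ : IsCancelMul S) (c : Con S),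
    (∀ a b : S, c a b ↔ OConj a b) ∧
      ∃ x y z : c.Quotient, x ≠ y ∧ x * z = y * z ∧ z * x = z * y := by
  refine ⟨Aff, inferInstance, inferInstance, Aff.con, fun a b => Iff.rfl,
    ((Aff.tr 0 : Aff) : Aff.con.Quotient), ((Aff.tr 1 : Aff) : Aff.con.Quotient),
    ((⟨0, 1⟩ : Aff) : Aff.con.Quotient), ?_, ?_, ?_⟩
  · intro h
    have h1 : OConj (Aff.tr 0) (Aff.tr 1) := (Con.eq Aff.con).1 h
    rw [Aff.oconj_iff] at h1
    have h2 := h1.2 rfl
    norm_num [Aff.tr] at h2
  · rw [← Con.coe_mul, ← Con.coe_mul]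
    refine (Con.eq Aff.con).2 ?_
    change OConj _ _
    rw [Aff.oconj_iff]
    refine ⟨rfl, fun h0 => ?_⟩
    simp [Aff.tr] at h0
  · rw [← Con.coe_mul, ← Con.coe_mul]
    refine (Con.eq Aff.con).2 ?_
    change OConj _ _
    rw [Aff.oconj_iff]
    refine ⟨rfl, fun h0 => ?_⟩
    simp [Aff.tr] at h0

end Pool.Agent.Results.MP_472d46_al.NotCancellative
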